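import Pool.Agent.K4H45.FE.Final

/-!
# MP_12983e_an: all continuous solutions of `f (x + f x) = f x + f (f x)`

A continuous map `f : ℝ → ℝ` solves the equation for all real `x` if and only if it is linear,
or it is piecewise linear with a nonnegative slope on each of the two half-lines.  No
differentiability is assumed at any point.
-/

namespace Pool.Agent.Results.MP_12983e_an.ContinuousSolutions

/-- The continuous solutions are exactly the linear maps `x ↦ a x` (any real `a`) and the maps
equal to `a x` for `x ≥ 0` and to `b x` for `x ≤ 0` with `a, b ≥ 0`. -/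
theorem result (f : ℝ → ℝ) (hf : Continuous f) :
    (∀ x : ℝ, f (x + f x) = f x + f (f x)) ↔
      (∃ a : ℝ, ∀ x : ℝ, f x = a * x) ∨
      (∃ a b : ℝ, 0 ≤ a ∧ 0 ≤ b ∧
        (∀ x : ℝ, 0 ≤ x → f x = a * x) ∧ (∀ x : ℝ, x ≤ 0 → f x = b * x)) :=
  Pool.Agent.K4H45.FE.classification f hf

end Pool.Agent.Results.MP_12983e_an.ContinuousSolutions
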